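import Pool.Agent.H374e.CB17

/-!
# CLT under the two-sided square root condition, along a set of logarithmic density one

For every stationary ergodic Markov chain and every `f` in the ranges of both `√(I - Q)` and
`√(I - Q*)` on `L²(π)`, `S_n / √n` converges in distribution to `N(0, σ²)`, `σ² = lim E S_n² / n`,
along a set of integers `n` of logarithmic density one. No further assumption is made.
-/

open MeasureTheory ProbabilityTheory Filter Topology TwoSidedCLT
open scoped ENNReal NNReal InnerProductSpace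

namespace Pool.Agent.Results.MP_cd27db_pr.LogDensityCLT

theorem result {Ω S : Type*} [MeasurableSpace Ω] [MeasurableSpace S]
    {P : Measure Ω} [IsProbabilityMeasure P] {π : Measure S} {ξ : ℤ → Ω → S}
    {Q : Kernel S S} [IsMarkovKernel Q] {T : Lp ℝ 2 π →L[ℝ] Lp ℝ 2 π}
    (hchain : IsStationaryMarkovChain P ξ Q π) (hT : IsMarkovOperator Q π T)
    (hergodic : ∀ u : Lp ℝ 2 π, T u = u → ∃ a : ℝ, u =ᵐ[π] fun _ => a)
    (f g g' : Lp ℝ 2 π) (hg : f = sqrtOp T g)
    (hg' : f = sqrtOp (ContinuousLinearMap.adjoint T) g') :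
    ∃ σ2 : ℝ≥0,
      Tendsto (fun n : ℕ => (∫ ω, (∑ i ∈ Finset.Icc 1 n, f (ξ (i : ℕ) ω)) ^ 2 ∂P) / n) atTop
        (𝓝 (σ2 : ℝ)) ∧
      ∃ D : Set ℕ, LogDensityOne D ∧ ∀ φ : BoundedContinuousFunction ℝ ℝ,
        Tendsto (fun n : ℕ => ∫ ω, φ ((∑ i ∈ Finset.Icc 1 n, f (ξ (i : ℕ) ω)) / √(n : ℝ)) ∂P)
          (atTop ⊓ 𝓟 D) (𝓝 (∫ x, φ x ∂(gaussianReal 0 σ2))) :=
  result_logdensity hchain hT hergodic f g g' hg hg'

end Pool.Agent.Results.MP_cd27db_pr.LogDensityCLT
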